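import Mathlib

/-!
# The Cantor space: agreement on initial segments, homogeneity of sets closed under finite changes
-/

set_option autoImplicit false

namespace Pool.Agent.H3R3.Rigid

open Set Topology

/-- the Cantor space -/
abbrev C : Type := ℕ → Bool

/-- agreement of two points on the first `k` coordinates -/
def Agr (k : ℕ) (x y : C) : Prop := ∀ i < k, y i = x i

lemma agr_refl (k : ℕ) (x : C) : Agr k x x := fun _ _ => rfl

lemma Agr.symm {k : ℕ} {x y : C} (h : Agr k x y) : Agr k y x := fun i hi => (h i hi).symm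

lemma Agr.trans {k : ℕ} {x y z : C} (h : Agr k x y) (h' : Agr k y z) : Agr k x z :=
  fun i hi => (h' i hi).trans (h i hi)

lemma Agr.mono {k l : ℕ} {x y : C} (h : Agr l x y) (hk : k ≤ l) : Agr k x y :=
  fun i hi => h i (hi.trans_le hk)

lemma eq_of_agr {x y : C} (h : ∀ k, Agr k x y) : x = y :=
  funext fun i => ((h (i + 1)) i (Nat.lt_succ_self i)).symm

lemma isOpen_agr (k : ℕ) (x : C) : IsOpen {y : C | Agr k x y} := by
  have := PiNat.isOpen_cylinder (fun _ : ℕ => Bool) x k
  exact this

lemma exists_agr_of_isOpen {U : Set C} (hU : IsOpen U) {x : C} (hx : x ∈ U) :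
    ∃ k, ∀ y, Agr k x y → y ∈ U := by
  obtain ⟨v, ⟨y, n, rfl⟩, hxv, hvU⟩ :=
    (PiNat.isTopologicalBasis_cylinders (fun _ : ℕ => Bool)).exists_subset_of_mem_open hx hU
  refine ⟨n, fun z hz => hvU ?_⟩
  intro i hi
  rw [hz i hi]; exact hxv i hi

lemma continuous_of_agr {h : C → C} (H : ∀ p m, ∃ k, ∀ q, Agr k p q → Agr m (h p) (h q)) :
    Continuous h := by
  rw [continuous_iff_continuousAt]
  intro p
  rw [ContinuousAt, Filter.tendsto_def]
  intro s hs
  obtain ⟨U, hUs, hU, hpU⟩ := mem_nhds_iff.1 hs
  obtain ⟨m, hm⟩ := exists_agr_of_isOpen hU hpU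
  obtain ⟨k, hk⟩ := H p m
  refine mem_nhds_iff.2 ⟨{q | Agr k p q}, fun q hq => hUs (hm _ (hk q hq)), isOpen_agr k p,
    agr_refl k p⟩

/-- two points differ in finitely many coordinates only -/
def E0 (x y : C) : Prop := {n | x n ≠ y n}.Finite

lemma E0.refl (x : C) : E0 x x := by simp [E0]

lemma E0.symm {x y : C} (h : E0 x y) : E0 y x := by
  refine Set.Finite.subset h fun n hn => ?_
  exact fun h' => hn h'.symm

lemma E0.trans {x y z : C} (h : E0 x y) (h' : E0 y z) : E0 x z := by
  refine (Set.Finite.union h h').subset fun n hn => ?_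
  by_contra hc
  simp only [mem_union, mem_ofPred_eq, not_or, not_not] at hc
  exact hn (hc.1.trans hc.2)

lemma E0.of_le {x y : C} (N : ℕ) (h : ∀ n, N ≤ n → x n = y n) : E0 x y := by
  refine (Set.finite_lt_nat N).subset fun n hn => ?_
  by_contra hc
  exact hn (h n (not_lt.1 hc))

lemma E0.exists_le {x y : C} (h : E0 x y) : ∃ N, ∀ n, N ≤ n → x n = y n := by
  obtain ⟨N, hN⟩ := h.bddAbove
  refine ⟨N + 1, fun n hn => ?_⟩
  by_contra hc
  have := hN hc
  omega

/-- classes of `E0` are countable -/
lemma E0.countable (x : C) : {y | E0 x y}.Countable := by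
  have : {y | E0 x y} ⊆ Set.range
      (fun s : Finset ℕ => (fun n => if n ∈ s then !(x n) else x n : C)) := by
    intro y hy0
    have hy : ({n | x n ≠ y n} : Set ℕ).Finite := hy0
    refine ⟨hy.toFinset, ?_⟩
    funext n
    by_cases h : x n = y n
    · have h2 : n ∉ Set.Finite.toFinset hy := by
        rw [Set.Finite.mem_toFinset]; exact fun h' => h' h
      simp [h2, h]
    · have h2 : n ∈ Set.Finite.toFinset hy := by
        rw [Set.Finite.mem_toFinset]; exact h
      simp only [h2, if_true]
      revert h
      cases x n <;> cases y n <;> simp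
  exact (Set.countable_range _).mono this

/-- every class of `E0` is dense -/
lemma E0.dense (x u : C) (k : ℕ) : ∃ y, E0 x y ∧ Agr k u y := by
  refine ⟨fun n => if n < k then u n else x n, E0.of_le k fun n hn => ?_, fun i hi => ?_⟩
  · simp [not_lt.2 hn]
  · simp [hi]

open Classical in
/-- the isometry of the Cantor space which moves `x` to `y` and changes only finitely many
coordinates of all the other points -/
noncomputable def swap (x y : C) (p : C) : C := fun i =>
  if ∀ j < i, p j = x j then xor (p i) (xor (x i) (y i)) else p i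

lemma swap_self (x y : C) : swap x y x = y := by
  funext i
  simp [swap]

lemma swap_agr_iff (x y p : C) (i : ℕ) :
    (∀ j < i, swap x y p j = y j) ↔ ∀ j < i, p j = x j := by
  constructor
  · intro h
    by_contra hc
    push Not at hc
    classical
    have hex : ∃ j, j < i ∧ p j ≠ x j := hc
    have h1 := Nat.find_spec hex
    have h2 : ∀ j < Nat.find hex, p j = x j := by
      intro j hj
      by_contra hne
      exact Nat.find_min hex hj ⟨hj.trans h1.1, hne⟩
    have h3 := h _ h1.1
    rw [swap, if_pos h2] at h3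
    have h4 := h1.2
    revert h3 h4
    cases p (Nat.find hex) <;> cases x (Nat.find hex) <;> cases y (Nat.find hex) <;> simp
  · intro h j hj
    rw [swap, if_pos (fun l hl => h l (hl.trans hj)), h j hj]
    cases x j <;> cases y j <;> rfl

lemma swap_swap (x y p : C) : swap y x (swap x y p) = p := by
  funext i
  by_cases h : ∀ j < i, p j = x j
  · have h2 := (swap_agr_iff x y p i).2 h
    rw [swap, if_pos h2, swap, if_pos h]
    cases x i <;> cases y i <;> cases p i <;> rfl
  · have h2 : ¬ ∀ j < i, swap x y p j = y j := fun h' => h ((swap_agr_iff x y p i).1 h')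
    rw [swap, if_neg h2, swap, if_neg h]

lemma swap_agr (x y p q : C) (m : ℕ) (h : Agr m p q) : Agr m (swap x y p) (swap x y q) := by
  intro i hi
  have h1 : (∀ j < i, q j = x j) ↔ (∀ j < i, p j = x j) := by
    constructor
    · intro h' j hj
      rw [← h j (hj.trans hi)]; exact h' j hj
    · intro h' j hj
      rw [h j (hj.trans hi)]; exact h' j hj
  unfold swap
  by_cases h2 : ∀ j < i, p j = x j
  · rw [if_pos h2, if_pos (h1.2 h2), h i hi]
  · rw [if_neg h2, if_neg (fun h' => h2 (h1.1 h')), h i hi]

lemma E0.swap {x y p : C} (hp : p ≠ x) : E0 p (swap x y p) := by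
  obtain ⟨n, hn⟩ := Function.ne_iff.1 hp
  refine E0.of_le (n + 1) fun i hi => ?_
  unfold Rigid.swap
  rw [if_neg]
  intro h
  exact hn (h n (by omega))

/-- the homeomorphism `swap x y` -/
noncomputable def swapHomeo (x y : C) : C ≃ₜ C where
  toFun := swap x y
  invFun := swap y x
  left_inv := swap_swap x y
  right_inv := swap_swap y x
  continuous_toFun := continuous_of_agr fun p m => ⟨m, fun q h => swap_agr x y p q m h⟩
  continuous_invFun := continuous_of_agr fun p m => ⟨m, fun q h => swap_agr y x p q m h⟩

/-- a set closed under finite changes is preserved by `swap x y` if it contains `x` and `y` -/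
lemma mem_swap_iff {A : Set C} (hA : ∀ p q, E0 p q → p ∈ A → q ∈ A) {x y : C} (hx : x ∈ A)
    (hy : y ∈ A) (p : C) : p ∈ A ↔ swap x y p ∈ A := by
  by_cases hp : p = x
  · subst hp
    simp [swap_self, hx, hy]
  · exact ⟨hA _ _ (E0.swap hp), hA _ _ (E0.swap hp).symm⟩

/-- the triangular automorphism `x ↦ (x n + x (i n))ₙ` of the Cantor space, where `i` takes every
value infinitely often -/
def tri (x : C) : C := fun n => if n = 0 then x 0 else xor (x n) (x (Nat.unpair n).1)

/-- its inverse -/
def triInv (y : C) : ℕ → Bool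
  | 0 => y 0
  | n + 1 => xor (y (n + 1)) (triInv y (Nat.unpair (n + 1)).1)
  decreasing_by exact Nat.unpair_lt (Nat.succ_le_succ (Nat.zero_le n))

lemma tri_triInv (y : C) : tri (triInv y) = y := by
  funext n
  cases n with
  | zero => simp [tri, triInv]
  | succ n =>
    simp only [tri, Nat.succ_ne_zero, if_false]
    rw [triInv]
    cases y (n + 1) <;> cases triInv y (Nat.unpair (n + 1)).1 <;> simp

lemma tri_injective : Function.Injective tri := by
  intro x y h
  funext n
  induction n using Nat.strong_induction_on with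
  | _ n ih =>
    have h1 := congrFun h n
    by_cases hn : n = 0
    · subst hn; simpa [tri] using h1
    · simp only [tri, hn, if_false] at h1
      have h2 := ih _ (Nat.unpair_lt (Nat.one_le_iff_ne_zero.2 hn))
      rw [h2] at h1
      revert h1
      cases x n <;> cases y n <;> cases y (Nat.unpair n).1 <;> simp

lemma tri_agr (p q : C) (m : ℕ) (h : Agr m p q) : Agr m (tri p) (tri q) := by
  intro i hi
  unfold tri
  by_cases h0 : i = 0
  · subst h0; simp [h 0 hi]
  · simp only [h0, if_false]
    rw [h i hi, h _ ((Nat.unpair_left_le i).trans_lt hi)]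

lemma continuous_tri : Continuous tri :=
  continuous_of_agr fun p m => ⟨m, fun q h => tri_agr p q m h⟩

/-- the homeomorphism `tri` -/
noncomputable def triHomeo : C ≃ₜ C :=
  Continuous.homeoOfEquivCompactToT2
    (f := Equiv.ofBijective tri ⟨tri_injective, fun y => ⟨triInv y, tri_triInv y⟩⟩)
    continuous_tri

lemma triHomeo_apply (x : C) : triHomeo x = tri x := rfl

/-- distinct points are never equivalent in both senses -/
lemma eq_of_E0_of_tri {x y : C} (h : E0 x y) (h' : E0 (tri x) (tri y)) : x = y := by
  by_contra hne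
  obtain ⟨i, hi⟩ := Function.ne_iff.1 hne
  obtain ⟨N, hN⟩ := h.exists_le
  obtain ⟨M, hM⟩ := h'.exists_le
  set n := Nat.pair i (max N (max M 1)) with hn
  have hle : max N (max M 1) ≤ n := Nat.right_le_pair _ _
  have hn0 : n ≠ 0 := by
    have : 1 ≤ n := le_trans (le_trans (le_max_right _ _) (le_max_right _ _)) hle
    omega
  have h1 := hM n (le_trans (le_trans (le_max_left _ _) (le_max_right _ _)) hle)
  have h2 := hN n (le_trans (le_max_left _ _) hle)
  simp only [tri, hn0, if_false] at h1
  rw [h2, hn, Nat.unpair_pair] at h1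
  revert h1 hi
  simp only
  cases x i <;> cases y i <;> cases y (Nat.pair i (max N (max M 1))) <;> simp

end Pool.Agent.H3R3.Rigid
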