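import Mathlib

/-!
# A transfinite recursion of length continuum
-/

set_option autoImplicit false

namespace Pool.Agent.H3R3.Rigid

open Set Cardinal

universe u

/-- choosing a function by well-founded recursion, if every step can be solved -/
theorem exists_rec {ι α : Type*} {r : ι → ι → Prop} (hr : WellFounded r)
    (Q : ∀ i : ι, (∀ j, r j i → α) → α → Prop) (h : ∀ i g, ∃ a, Q i g a) :
    ∃ f : ι → α, ∀ i, Q i (fun j _ => f j) (f i) := by
  classical
  refine ⟨hr.fix (fun i g => Classical.choose (h i g)), fun i => ?_⟩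
  rw [hr.fix_eq]
  exact Classical.choose_spec (h i _)

/-- **The recursion.**  `E b` (`b : Bool`) are two relations on `G` with countable classes, which
hold simultaneously only on the diagonal; `P i` are sets of pairs which are graphs of partial
injections without fixed points, with at least `κ` elements. -/
theorem exists_points {G : Type u} {κ : Cardinal.{u}} (hκ : ℵ₀ < κ) (E : Bool → G → G → Prop)
    (hsymm : ∀ b x y, E b x y → E b y x)
    (hcount : ∀ b x, {y | E b x y}.Countable)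
    (hE : ∀ x y, E false x y → E true x y → x = y)
    (P : κ.ord.ToType → Set (G × G))
    (hP1 : ∀ i, ∀ p ∈ P i, ∀ q ∈ P i, p.1 = q.1 → p = q)
    (hP2 : ∀ i, ∀ p ∈ P i, ∀ q ∈ P i, p.2 = q.2 → p = q)
    (hP3 : ∀ i, ∀ p ∈ P i, p.1 ≠ p.2)
    (hP4 : ∀ i, κ ≤ #(P i)) :
    ∃ (x z : κ.ord.ToType → G) (b : κ.ord.ToType → Bool),
      (∀ i, (x i, z i) ∈ P i) ∧ (∀ i j, ¬ E (b i) (x i) (z j)) ∧
      (∀ i j, i ≠ j → b i = b j → ¬ E (b i) (x i) (x j)) := by
  classical
  -- the requirement at step `i`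
  let Q : ∀ i : κ.ord.ToType, (∀ j, j < i → (G × G) × Bool) → (G × G) × Bool → Prop :=
    fun i g a => a.1 ∈ P i ∧ ¬ E a.2 a.1.1 a.1.2 ∧
      ∀ j (hj : j < i), ∀ c : Bool, ¬ E c (g j hj).1.1 a.1.2 ∧ ¬ E c (g j hj).1.2 a.1.1 ∧
        ¬ E c (g j hj).1.1 a.1.1
  have hQ : ∀ i g, ∃ a, Q i g a := by
    intro i g
    -- the forbidden points
    let N : Set G := ⋃ j : Iio i, ⋃ c : Bool,
      ({y | E c (g j.1 j.2).1.1 y} ∪ {y | E c (g j.1 j.2).1.2 y})
    have hN : #N < κ := by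
      have h1 : #N ≤ #(Iio i) * ℵ₀ := by
        refine (mk_iUnion_le _).trans ?_
        refine mul_le_mul_right ?_ _
        refine ciSup_le' fun j => ?_
        have h2 : (⋃ c : Bool,
            ({y | E c (g j.1 j.2).1.1 y} ∪ {y | E c (g j.1 j.2).1.2 y})).Countable :=
          countable_iUnion fun c => (hcount c _).union (hcount c _)
        exact h2.le_aleph0
      refine h1.trans_lt ?_
      exact mul_lt_of_lt hκ.le (mk_Iio_toType_ord_lt i) hκ
    -- a pair avoiding them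
    obtain ⟨p, hp, hp1, hp2⟩ : ∃ p ∈ P i, p.1 ∉ N ∧ p.2 ∉ N := by
      by_contra hc
      push Not at hc
      have h1 : P i ⊆ {p | p ∈ P i ∧ p.1 ∈ N} ∪ {p | p ∈ P i ∧ p.2 ∈ N} := by
        intro p hp
        by_cases h : p.1 ∈ N
        · exact Or.inl ⟨hp, h⟩
        · exact Or.inr ⟨hp, hc p hp h⟩
      have h2 : #{p | p ∈ P i ∧ p.1 ∈ N} ≤ #N := by
        refine mk_le_of_injective (f := fun p => (⟨p.1.1, p.2.2⟩ : N)) ?_
        intro p q hpq
        exact Subtype.ext (hP1 i _ p.2.1 _ q.2.1 (congrArg Subtype.val hpq))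
      have h3 : #{p | p ∈ P i ∧ p.2 ∈ N} ≤ #N := by
        refine mk_le_of_injective (f := fun p => (⟨p.1.2, p.2.2⟩ : N)) ?_
        intro p q hpq
        exact Subtype.ext (hP2 i _ p.2.1 _ q.2.1 (congrArg Subtype.val hpq))
      have h4 : #(P i) < κ := by
        refine (mk_le_mk_of_subset h1).trans_lt ?_
        refine (mk_union_le _ _).trans_lt ?_
        exact add_lt_of_lt hκ.le (h2.trans_lt hN) (h3.trans_lt hN)
      exact absurd (hP4 i) (not_le.2 h4)
    have hb : ∃ c : Bool, ¬ E c p.1 p.2 := by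
      by_contra hc
      push Not at hc
      exact hP3 i p hp (hE _ _ (hc false) (hc true))
    obtain ⟨c, hc⟩ := hb
    refine ⟨(p, c), hp, hc, fun j hj d => ⟨fun h => hp2 ?_, fun h => hp1 ?_, fun h => hp1 ?_⟩⟩
    · exact mem_iUnion.2 ⟨⟨j, hj⟩, mem_iUnion.2 ⟨d, Or.inl h⟩⟩
    · exact mem_iUnion.2 ⟨⟨j, hj⟩, mem_iUnion.2 ⟨d, Or.inr h⟩⟩
    · exact mem_iUnion.2 ⟨⟨j, hj⟩, mem_iUnion.2 ⟨d, Or.inl h⟩⟩
  obtain ⟨f, hf⟩ := exists_rec (r := fun a b : κ.ord.ToType => a < b) wellFounded_lt Q hQ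
  refine ⟨fun i => (f i).1.1, fun i => (f i).1.2, fun i => (f i).2, fun i => (hf i).1,
    fun i j => ?_, fun i j hij hb => ?_⟩
  · rcases lt_trichotomy i j with h | h | h
    · exact ((hf j).2.2 i h _).1
    · subst h; exact (hf i).2.1
    · intro h'
      exact ((hf i).2.2 j h _).2.1 (hsymm _ _ _ h')
  · rcases lt_trichotomy i j with h | h | h
    · exact ((hf j).2.2 i h _).2.2
    · exact absurd h hij
    · intro h'
      exact ((hf i).2.2 j h _).2.2 (hsymm _ _ _ h')

end Pool.Agent.H3R3.Rigid
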