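import Pool.Agent.H3R3.Rigid.Cantor
import Pool.Agent.H3R3.Rigid.Rec

/-!
# A zero-dimensional rigid space which is the union of two homogeneous subspaces
-/

set_option autoImplicit false

namespace Pool.Agent.H3R3.Rigid

open Set Cardinal Topology

/-- the two equivalence relations -/
def EE (b : Bool) (x y : C) : Prop := if b then E0 (tri x) (tri y) else E0 x y

lemma EE.symm {b : Bool} {x y : C} (h : EE b x y) : EE b y x := by
  cases b
  · exact E0.symm h
  · exact E0.symm h

lemma EE.trans {b : Bool} {x y z : C} (h : EE b x y) (h' : EE b y z) : EE b x z := by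
  cases b
  · exact E0.trans h h'
  · exact E0.trans h h'

lemma EE.refl (b : Bool) (x : C) : EE b x x := by
  cases b
  · exact E0.refl x
  · exact E0.refl (tri x)

lemma EE.countable (b : Bool) (x : C) : {y | EE b x y}.Countable := by
  cases b
  · exact E0.countable x
  · exact (E0.countable (tri x)).preimage tri_injective

lemma EE.dense (b : Bool) (x u : C) (k : ℕ) : ∃ y, EE b x y ∧ Agr k u y := by
  cases b
  · exact E0.dense x u k
  · obtain ⟨y, hy, hk⟩ := E0.dense (tri x) (tri u) k
    refine ⟨triInv y, ?_, ?_⟩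
    · show E0 (tri x) (tri (triInv y))
      rw [tri_triInv]; exact hy
    · -- `tri` preserves agreement in both directions
      have key : ∀ i < k, (triInv y) i = u i := by
        intro i
        induction i using Nat.strong_induction_on with
        | _ i ih =>
          intro hi
          have h1 : tri (triInv y) i = tri u i := by rw [tri_triInv]; exact hk i hi
          by_cases h0 : i = 0
          · subst h0; simpa [tri] using h1
          · simp only [tri, h0, if_false] at h1
            have h2 := ih _ (Nat.unpair_lt (Nat.one_le_iff_ne_zero.2 h0))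
              ((Nat.unpair_left_le i).trans_lt hi)
            rw [h2] at h1
            revert h1
            cases triInv y i <;> cases u i <;> cases u (Nat.unpair i).1 <;> simp
      exact key

/-- the relation: `z` is the value at `x` of the homeomorphism given on a sequence -/
def L (g : ℕ → C × C) (x z : C) : Prop :=
  (∀ k, ∃ n, Agr k x (g n).1) ∧
  (∀ m, ∃ k, ∀ n, Agr k x (g n).1 → Agr m z (g n).2) ∧
  (∀ m, ∃ k, ∀ n, Agr k z (g n).2 → Agr m x (g n).1)

lemma L.right_unique {g : ℕ → C × C} {x z z' : C} (h : L g x z) (h' : L g x z') : z = z' := by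
  refine eq_of_agr fun m => ?_
  obtain ⟨k, hk⟩ := h.2.1 m
  obtain ⟨k', hk'⟩ := h'.2.1 m
  obtain ⟨n, hn⟩ := h.1 (max k k')
  exact (hk n (hn.mono (le_max_left _ _))).trans (hk' n (hn.mono (le_max_right _ _))).symm

lemma L.left_unique {g : ℕ → C × C} {x x' z : C} (h : L g x z) (h' : L g x' z) : x = x' := by
  refine eq_of_agr fun m => ?_
  obtain ⟨k, hk⟩ := h.2.2 m
  obtain ⟨k', hk'⟩ := h'.2.2 m
  obtain ⟨l, hl⟩ := h.2.1 (max k k')
  obtain ⟨n, hn⟩ := h.1 l
  have hn2 := hl n hn
  exact (hk n (hn2.mono (le_max_left _ _))).trans (hk' n (hn2.mono (le_max_right _ _))).symm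

lemma mk_C : #C = 𝔠 := by simp [C]

/-- the tasks: a countable part of a homeomorphism and a basic clopen set -/
abbrev Task : Type := (ℕ → C × C) × (C × ℕ)

lemma mk_Task : #Task = 𝔠 := by
  have h1 : #(C × C) = 𝔠 := by rw [mk_prod]; simp
  have h2 : #(ℕ → C × C) = 𝔠 := by rw [← power_def, h1]; simp
  rw [mk_prod, h2]
  simp

/-- candidates for the points which kill the homeomorphisms of a task -/
def Cand (t : Task) : Set (C × C) :=
  {p | L t.1 p.1 p.2 ∧ Agr t.2.2 t.2.1 p.1 ∧ ¬ Agr t.2.2 t.2.1 p.2}

/-- flip the first bit -/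
def flip (x : C) : C := fun n => if n = 0 then !(x 0) else x n

lemma flip_flip (x : C) : flip (flip x) = x := by
  funext n
  by_cases h : n = 0
  · subst h; simp [flip]
  · simp [flip, h]

lemma flip_ne (x : C) : x ≠ flip x := by
  intro h
  have := congrFun h 0
  simp [flip] at this

open Classical in
/-- the set of pairs offered at a task -/
noncomputable def Pairs (t : Task) : Set (C × C) :=
  if 𝔠 ≤ #(Cand t) then Cand t else {p | p.2 = flip p.1}

theorem exists_main : ∃ (A : Bool → Set C),
    (∀ b, ∀ p q, EE b p q → p ∈ A b → q ∈ A b) ∧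
    (∀ u k, 𝔠 ≤ #{x : C | x ∈ A false ∪ A true ∧ Agr k u x}) ∧
    (∀ t : Task, 𝔠 ≤ #(Cand t) → ∃ p ∈ Cand t, p.1 ∈ A false ∪ A true ∧
      p.2 ∉ A false ∪ A true) := by
  classical
  -- enumerate the tasks
  have hcard : #((𝔠 : Cardinal.{0}).ord.ToType) = #Task := by rw [mk_Task, mk_ord_toType]
  obtain ⟨e⟩ := Cardinal.eq.1 hcard
  have hP1 : ∀ i, ∀ p ∈ Pairs (e i), ∀ q ∈ Pairs (e i), p.1 = q.1 → p = q := by
    intro i p hp q hq h
    unfold Pairs at hp hq
    split_ifs at hp hq with hc
    · refine Prod.ext h ?_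
      have h1 := hq.1
      rw [← h] at h1
      exact hp.1.right_unique h1
    · refine Prod.ext h ?_
      have h1 : p.2 = flip p.1 := hp
      have h2 : q.2 = flip q.1 := hq
      rw [h1, h2, h]
  have hP2 : ∀ i, ∀ p ∈ Pairs (e i), ∀ q ∈ Pairs (e i), p.2 = q.2 → p = q := by
    intro i p hp q hq h
    unfold Pairs at hp hq
    split_ifs at hp hq with hc
    · refine Prod.ext ?_ h
      have h1 := hq.1
      rw [← h] at h1
      exact hp.1.left_unique h1
    · refine Prod.ext ?_ h
      have h1 : p.2 = flip p.1 := hp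
      have h2 : q.2 = flip q.1 := hq
      rw [← flip_flip p.1, ← flip_flip q.1, ← h1, ← h2, h]
  have hP3 : ∀ i, ∀ p ∈ Pairs (e i), p.1 ≠ p.2 := by
    intro i p hp h
    unfold Pairs at hp
    split_ifs at hp with hc
    · apply hp.2.2
      rw [← h]; exact hp.2.1
    · have h1 : p.2 = flip p.1 := hp
      exact flip_ne p.1 (h.trans h1)
  have hP4 : ∀ i, 𝔠 ≤ #(Pairs (e i)) := by
    intro i
    unfold Pairs
    split_ifs with hc
    · exact hc
    · rw [← mk_C]
      refine mk_le_of_injective (f := fun x : C => (⟨(x, flip x), rfl⟩ :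
        {p : C × C | p.2 = flip p.1})) ?_
      intro x y h
      exact congrArg (fun p => p.1.1) h
  obtain ⟨x, z, b, h1, h2, h3⟩ := exists_points (κ := 𝔠) aleph0_lt_continuum EE
    (fun b x y h => h.symm) EE.countable
    (fun x y h h' => eq_of_E0_of_tri h h') (fun i => Pairs (e i)) hP1 hP2 hP3 hP4
  refine ⟨fun c => {y | ∃ i, b i = c ∧ EE c (x i) y}, ?_, ?_, ?_⟩
  · rintro c p q hpq ⟨i, hi, hp⟩
    exact ⟨i, hi, hp.trans hpq⟩
  · intro u k
    -- one of the two types occurs continuum many times
    have hT : ∃ c : Bool, 𝔠 ≤ #{i | b i = c} := by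
      by_contra hc
      push Not at hc
      have h4 : (univ : Set (𝔠 : Cardinal.{0}).ord.ToType) ⊆ {i | b i = false} ∪ {i | b i = true} := by
        intro i _
        cases h : b i
        · exact Or.inl h
        · exact Or.inr h
      have h5 : #(univ : Set (𝔠 : Cardinal.{0}).ord.ToType) < 𝔠 :=
        ((mk_le_mk_of_subset h4).trans (mk_union_le _ _)).trans_lt
          (add_lt_of_lt aleph0_le_continuum (hc false) (hc true))
      rw [mk_univ, mk_ord_toType] at h5
      exact lt_irrefl _ h5
    obtain ⟨c, hc⟩ := hT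
    choose y hy hyk using fun i => EE.dense c (x i) u k
    refine hc.trans ?_
    refine mk_le_of_injective (f := fun i : {i | b i = c} =>
      (⟨y i.1, ?_, hyk i.1⟩ : {x : C | x ∈ _ ∧ Agr k u x})) ?_
    · cases c
      · exact Or.inl ⟨i.1, i.2, hy i.1⟩
      · exact Or.inr ⟨i.1, i.2, hy i.1⟩
    · intro i j hij
      by_contra hne
      have h4 : y i.1 = y j.1 := congrArg Subtype.val hij
      have h5 : EE c (x i.1) (x j.1) := by
        have h6 := hy i.1
        rw [h4] at h6
        exact h6.trans (hy j.1).symm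
      have h7 : b i.1 = c := i.2
      have h8 : b j.1 = c := j.2
      refine h3 i.1 j.1 (fun h => hne (Subtype.ext h)) (h7.trans h8.symm) ?_
      rw [h7]; exact h5
  · intro t ht
    obtain ⟨i, rfl⟩ := e.surjective t
    have h4 := h1 i
    simp only [Pairs, if_pos ht] at h4
    refine ⟨(x i, z i), h4, ?_, ?_⟩
    · cases h : b i
      · exact Or.inl ⟨i, h, EE.refl _ _⟩
      · exact Or.inr ⟨i, h, EE.refl _ _⟩
    · rintro (⟨j, hj, hz⟩ | ⟨j, hj, hz⟩)
      · have := h2 j i
        rw [hj] at this; exact this hz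
      · have := h2 j i
        rw [hj] at this; exact this hz

end Pool.Agent.H3R3.Rigid
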